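import Mathlib

set_option autoImplicit false

namespace Pool.Agent.H864Z.Disk

/-- Data of a graph whose vertex classes are copies of an abelian group `A` and whose edges
between two classes are given by one linear equation over `ZMod 2`. -/
structure Lin (C A : Type) [AddCommGroup A] where
  E : C → C → Prop
  symm : ∀ c d, E c d → E d c
  refl : ∀ c, E c c
  l : C → C → A →+ ZMod 2
  l_self : ∀ c, l c c = 0

variable {C A : Type} [AddCommGroup A]

/-- A twist. -/
structure Tw (C : Type) where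
  t : C → C → ZMod 2
  symm : ∀ c d, t c d = t d c
  self : ∀ c, t c c = 0

def Tw.zero (C : Type) : Tw C := ⟨fun _ _ => 0, fun _ _ => rfl, fun _ => rfl⟩

def Lin.Rel (L : Lin C A) (T : Tw C) (p q : C × A) : Prop :=
  L.E p.1 q.1 ∧ L.l p.1 q.1 p.2 + L.l q.1 p.1 q.2 = T.t p.1 q.1

theorem Lin.Rel.symm' {L : Lin C A} {T : Tw C} {p q : C × A} (h : L.Rel T p q) : L.Rel T q p :=
  ⟨L.symm _ _ h.1, by rw [add_comm, T.symm]; exact h.2⟩

theorem Lin.rel_refl (L : Lin C A) (T : Tw C) (p : C × A) : L.Rel T p p :=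
  ⟨L.refl _, by simp [L.l_self, T.self]⟩

def Lin.graph (L : Lin C A) (T : Tw C) : SimpleGraph (C × A) where
  Adj p q := p ≠ q ∧ L.Rel T p q
  symm := ⟨fun _ _ h => ⟨h.1.symm, h.2.symm'⟩⟩
  loopless := ⟨fun _ h => h.1 rfl⟩

theorem Lin.rel_iff (L : Lin C A) (T : Tw C) (p q : C × A) :
    L.Rel T p q ↔ p = q ∨ (L.graph T).Adj p q := by
  constructor
  · intro h
    by_cases e : p = q
    · exact Or.inl e
    · exact Or.inr ⟨e, h⟩
  · rintro (rfl | h)
    · exact L.rel_refl T p
    · exact h.2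

/-- `s` solves the equation between the classes `c` and `d`. -/
def Lin.Sat (L : Lin C A) (T : Tw C) (s : C → A) (c d : C) : Prop :=
  L.E c d → L.l c d (s c) + L.l d c (s d) = T.t c d

def Lin.Sol (L : Lin C A) (T : Tw C) : Type :=
  {f : C → C × A // ∀ c d, L.E c d → L.Rel T (f c) (f d)}

theorem Lin.not_iso [Finite C] [Finite A] (L : Lin C A) (T : Tw C)
    (h : ¬ ∃ s : C → A, ∀ c d, L.Sat T s c d) :
    ¬ Nonempty (L.graph (Tw.zero C) ≃g L.graph T) := by
  classical
  rintro ⟨e⟩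
  have : Finite (L.Sol T) := by unfold Lin.Sol; infer_instance
  have : Finite (L.Sol (Tw.zero C)) := by unfold Lin.Sol; infer_instance
  -- transport of solutions along the isomorphism
  let F : L.Sol (Tw.zero C) → L.Sol T := fun f => ⟨fun c => e (f.1 c), fun c d hcd => by
    rw [L.rel_iff]
    rcases (L.rel_iff _ _ _).1 (f.2 c d hcd) with h1 | h1
    · exact Or.inl (congrArg e h1)
    · exact Or.inr (e.map_adj_iff.2 h1)⟩
  have hF : Function.Injective F := by
    intro f g hfg
    apply Subtype.ext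
    funext c
    have := congrArg (fun z : L.Sol T => z.1 c) hfg
    exact e.injective this
  -- a base point in each nonempty fibre
  have hb : ∀ f : L.Sol T, ∃ g : L.Sol T, ∀ c, (g.1 c).1 = (f.1 c).1 := fun f => ⟨f, fun _ => rfl⟩
  let base : (C → C) → C → A := fun ψ =>
    if hψ : ∃ g : L.Sol T, ∀ c, (g.1 c).1 = ψ c then fun c => (hψ.choose.1 c).2 else fun _ => 0
  have hbase : ∀ f : L.Sol T, ∀ c d, L.E c d →
      L.l (f.1 c).1 (f.1 d).1 (base (fun c => (f.1 c).1) c) +
        L.l (f.1 d).1 (f.1 c).1 (base (fun c => (f.1 c).1) d) = T.t (f.1 c).1 (f.1 d).1 := by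
    intro f c d hcd
    have hψ : ∃ g : L.Sol T, ∀ c, (g.1 c).1 = (fun c => (f.1 c).1) c := hb f
    have h1 := hψ.choose_spec
    have h2 := (hψ.choose.2 c d hcd).2
    simp only [base, dif_pos hψ]
    rw [h1 c, h1 d] at h2
    exact h2
  let Gm : L.Sol T → L.Sol (Tw.zero C) := fun f =>
    ⟨fun c => ((f.1 c).1, (f.1 c).2 - base (fun c => (f.1 c).1) c), fun c d hcd => by
      refine ⟨(f.2 c d hcd).1, ?_⟩
      have h1 := (f.2 c d hcd).2
      have h2 := hbase f c d hcd
      simp only [map_sub, Tw.zero]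
      linear_combination h1 - h2⟩
  have hG : Function.Injective Gm := by
    intro f g hfg
    have h1 : ∀ c, (f.1 c).1 = (g.1 c).1 := fun c =>
      congrArg (fun z : L.Sol (Tw.zero C) => (z.1 c).1) hfg
    have h2 : ∀ c, (f.1 c).2 - base (fun c => (f.1 c).1) c =
        (g.1 c).2 - base (fun c => (g.1 c).1) c := fun c =>
      congrArg (fun z : L.Sol (Tw.zero C) => (z.1 c).2) hfg
    have h3 : (fun c => (f.1 c).1) = fun c => (g.1 c).1 := funext h1
    apply Subtype.ext
    funext c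
    refine Prod.ext (h1 c) ?_
    have := h2 c
    rw [h3] at this
    exact sub_left_injective this
  have hsurj : Function.Surjective (Gm ∘ F) :=
    Finite.surjective_of_injective (hG.comp hF)
  let z : L.Sol (Tw.zero C) := ⟨fun c => (c, 0), fun c d hcd => ⟨hcd, by simp [Tw.zero]⟩⟩
  obtain ⟨f, hf⟩ := hsurj z
  have h1 : ∀ c, ((F f).1 c).1 = c := fun c =>
    congrArg (fun w : L.Sol (Tw.zero C) => (w.1 c).1) hf
  refine h ⟨fun c => ((F f).1 c).2, fun c d hcd => ?_⟩
  have := ((F f).2 c d hcd).2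
  rw [h1 c, h1 d] at this
  exact this

/-- The shift of every class by a section. -/
def shift (s : C → A) : C × A ≃ C × A where
  toFun p := (p.1, p.2 + s p.1)
  invFun p := (p.1, p.2 - s p.1)
  left_inv p := by simp
  right_inv p := by simp

/-- Duplicator's winning strategy in the bijective pebble game, from a strategy on sections. -/
theorem Lin.game (L : Lin C A) (T : Tw C) (k : ℕ) (Good : (Fin k → C) → (C → A) → Prop)
    (h1 : ∀ cs s, Good cs s → ∀ i j, L.Sat T s (cs i) (cs j))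
    (h2 : ∀ cs s, Good cs s → ∀ i c, ∃ s', Good (Function.update cs i c) s' ∧
      ∀ j, j ≠ i → s' (cs j) = s (cs j))
    (h3 : ∀ c, ∃ s, Good (fun _ => c) s) :
    ∃ P : Set ((Fin k → C × A) × (Fin k → C × A)),
      (∀ p ∈ P, ∀ i j : Fin k, (p.1 i = p.1 j ↔ p.2 i = p.2 j) ∧
        ((L.graph (Tw.zero C)).Adj (p.1 i) (p.1 j) ↔ (L.graph T).Adj (p.2 i) (p.2 j))) ∧
      (∀ p ∈ P, ∀ i : Fin k, ∃ f : C × A ≃ C × A, ∀ v,
        (Function.update p.1 i v, Function.update p.2 i (f v)) ∈ P) ∧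
      (∃ f : C × A ≃ C × A, ∀ v, ((fun _ : Fin k => v), (fun _ : Fin k => f v)) ∈ P) := by
  classical
  refine ⟨{p | ∃ s, Good (fun i => (p.1 i).1) s ∧ ∀ i, p.2 i = shift s (p.1 i)}, ?_, ?_, ?_⟩
  · rintro p ⟨s, hs, hp⟩ i j
    rw [hp i, hp j]
    have hne : p.1 i = p.1 j ↔ shift s (p.1 i) = shift s (p.1 j) :=
      (shift s).injective.eq_iff.symm
    refine ⟨hne, and_congr hne.not ?_⟩
    have := h1 _ _ hs i j
    refine and_congr_right fun hE => ?_
    have h := this hE
    simp only [shift, Equiv.coe_fn_mk, map_add, Tw.zero] at h ⊢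
    constructor
    · intro h'; linear_combination h + h'
    · intro h'; linear_combination h' - h
  · rintro p ⟨s, hs, hp⟩ i
    choose s' hs' hs'' using h2 _ _ hs i
    refine ⟨shift (fun c => s' c c), fun v => ⟨s' v.1, ?_, fun j => ?_⟩⟩
    · have : (fun j => (Function.update p.1 i v j).1) =
          Function.update (fun j => (p.1 j).1) i v.1 := by
        funext j
        by_cases hj : j = i
        · subst hj; simp
        · simp [Function.update_of_ne hj]
      rw [this]
      exact hs' v.1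
    · by_cases hj : j = i
      · subst hj
        simp [shift]
      · simp only [Function.update_of_ne hj]
        rw [hp j]
        simp only [shift, Equiv.coe_fn_mk]
        rw [hs'' v.1 j hj]
  · choose s hs using h3
    exact ⟨shift (fun c => s c c), fun v => ⟨s v.1, hs v.1, fun _ => by simp [shift]⟩⟩

/-- Transport of the game to `Fin n`. -/
theorem game_transport {V : Type} {n k : ℕ} (e : Fin n ≃ V) (G H : SimpleGraph V)
    (h : ∃ P : Set ((Fin k → V) × (Fin k → V)),
      (∀ p ∈ P, ∀ i j : Fin k, (p.1 i = p.1 j ↔ p.2 i = p.2 j) ∧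
        (G.Adj (p.1 i) (p.1 j) ↔ H.Adj (p.2 i) (p.2 j))) ∧
      (∀ p ∈ P, ∀ i : Fin k, ∃ f : V ≃ V, ∀ v,
        (Function.update p.1 i v, Function.update p.2 i (f v)) ∈ P) ∧
      (∃ f : V ≃ V, ∀ v, ((fun _ : Fin k => v), (fun _ : Fin k => f v)) ∈ P)) :
    ∃ P : Set ((Fin k → Fin n) × (Fin k → Fin n)),
      (∀ p ∈ P, ∀ i j : Fin k, (p.1 i = p.1 j ↔ p.2 i = p.2 j) ∧
        ((G.comap e).Adj (p.1 i) (p.1 j) ↔ (H.comap e).Adj (p.2 i) (p.2 j))) ∧
      (∀ p ∈ P, ∀ i : Fin k, ∃ f : Fin n ≃ Fin n, ∀ v,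
        (Function.update p.1 i v, Function.update p.2 i (f v)) ∈ P) ∧
      (∃ f : Fin n ≃ Fin n, ∀ v, ((fun _ : Fin k => v), (fun _ : Fin k => f v)) ∈ P) := by
  classical
  obtain ⟨P, h1, h2, f0, h3⟩ := h
  refine ⟨{p | (e ∘ p.1, e ∘ p.2) ∈ P}, ?_, ?_, ?_⟩
  · intro p hp i j
    have := h1 _ hp i j
    simp only [Function.comp, e.injective.eq_iff] at this
    exact this
  · intro p hp i
    obtain ⟨f, hf⟩ := h2 _ hp i
    refine ⟨e.trans (f.trans e.symm), fun v => ?_⟩
    have := hf (e v)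
    simp only [Set.mem_ofPred_eq, Function.comp_update, Equiv.trans_apply, Equiv.apply_symm_apply]
    exact this
  · refine ⟨e.trans (f0.trans e.symm), fun v => ?_⟩
    have := h3 (e v)
    simp only [Set.mem_ofPred_eq, Function.comp_def, Equiv.trans_apply, Equiv.apply_symm_apply]
    exact this

end Pool.Agent.H864Z.Disk
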