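import Pool.Agent.H864Z.Disk.Geo
import Pool.Agent.H864Z.Disk.Cfi

set_option autoImplicit false

namespace Pool.Agent.H864Z.Disk

abbrev A2 : Type := ZMod 2 × ZMod 2

/-- Classes: equation gadgets, ports and variables. -/
inductive Cl (U W : Type) : Type
  | X (u : U) : Cl U W
  | L (u : U) (t : Fin 3) : Cl U W
  | N (t : Fin 3) (w : W) : Cl U W

instance {U W : Type} [Finite U] [Finite W] : Finite (Cl U W) :=
  Finite.of_surjective
    (fun z : U ⊕ (U × Fin 3) ⊕ (Fin 3 × W) =>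
      match z with
      | .inl u => Cl.X u
      | .inr (.inl p) => Cl.L p.1 p.2
      | .inr (.inr p) => Cl.N p.1 p.2)
    (by
      rintro (u | ⟨u, t⟩ | ⟨t, w⟩)
      · exact ⟨.inl u, rfl⟩
      · exact ⟨.inr (.inl (u, t)), rfl⟩
      · exact ⟨.inr (.inr (t, w)), rfl⟩)

def co : Fin 3 → A2 →+ ZMod 2 :=
  ![AddMonoidHom.fst _ _, AddMonoidHom.snd _ _, AddMonoidHom.fst _ _ + AddMonoidHom.snd _ _]

variable {U W : Type}

def gE (η : U → ℕ) (ψ : U → Fin 3 → W) : Cl U W → Cl U W → Prop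
  | .X w, .L u _ => w = u ∨ η u < η w
  | .L u _, .X w => w = u ∨ η u < η w
  | .N s w, .L u t => s = t ∧ w = ψ u t
  | .L u t, .N s w => s = t ∧ w = ψ u t
  | _, _ => True

open Classical in
noncomputable def gl : Cl U W → Cl U W → A2 →+ ZMod 2
  | .X w, .L u t => if w = u then co t else 0
  | .L u _, .X w => if w = u then AddMonoidHom.fst _ _ else 0
  | .N _ _, .L _ _ => AddMonoidHom.fst _ _
  | .L _ _, .N _ _ => AddMonoidHom.fst _ _
  | _, _ => 0

noncomputable def gLin (η : U → ℕ) (ψ : U → Fin 3 → W) : Lin (Cl U W) A2 where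
  E := gE η ψ
  symm := by
    rintro (_ | _ | _) (_ | _ | _) h <;> exact h
  refl := by
    rintro (_ | _ | _) <;> trivial
  l := gl
  l_self := by
    rintro (_ | _ | _) <;> rfl

open Classical in
noncomputable def gt (b : U → ZMod 2) : Cl U W → Cl U W → ZMod 2
  | .X w, .L u t => if w = u ∧ t = 2 then b u else 0
  | .L u t, .X w => if w = u ∧ t = 2 then b u else 0
  | _, _ => 0

noncomputable def gTw (b : U → ZMod 2) : Tw (Cl U W) where
  t := gt b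
  symm := by
    rintro (_ | _ | _) (_ | _ | _) <;> rfl
  self := by
    rintro (_ | _ | _) <;> rfl

/-- The equation at the node `u`. -/
def Eqn (ψ : U → Fin 3 → W) (b : U → ZMod 2) (x : Fin 3 → W → ZMod 2) (u : U) : Prop :=
  x 0 (ψ u 0) + x 1 (ψ u 1) + x 2 (ψ u 2) = b u

def sec (ψ : U → Fin 3 → W) (x : Fin 3 → W → ZMod 2) : Cl U W → A2
  | .X u => (x 0 (ψ u 0), x 1 (ψ u 1))
  | .L u t => (x t (ψ u t), 0)
  | .N t w => (x t w, 0)

theorem two_add (a : ZMod 2) : a + a = 0 := by revert a; decide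

theorem sat_XL (η : U → ℕ) (ψ : U → Fin 3 → W) (b : U → ZMod 2) (x : Fin 3 → W → ZMod 2)
    (w u : U) (t : Fin 3) (h : Eqn ψ b x w) :
    gl (Cl.X w : Cl U W) (Cl.L u t) (sec ψ x (Cl.X w)) +
      gl (Cl.L u t : Cl U W) (Cl.X w) (sec ψ x (Cl.L u t)) =
      gt b (Cl.X w : Cl U W) (Cl.L u t) := by
  by_cases hw : w = u
  · subst hw
    unfold Eqn at h
    fin_cases t
    · simp [gl, gt, sec, co, two_add]
    · simp [gl, gt, sec, co, two_add]
    · simp [gl, gt, sec, co, h]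
  · simp [gl, gt, hw]

theorem sat_sec (η : U → ℕ) (ψ : U → Fin 3 → W) (b : U → ZMod 2) (x : Fin 3 → W → ZMod 2)
    (c d : Cl U W) (hc : ∀ u, c = .X u → Eqn ψ b x u) (hd : ∀ u, d = .X u → Eqn ψ b x u) :
    (gLin η ψ).Sat (gTw b) (sec ψ x) c d := by
  intro hE
  rcases c with w | ⟨u, t⟩ | ⟨s, w⟩ <;> rcases d with w' | ⟨u', t'⟩ | ⟨s', w'⟩
  · simp [gLin, gTw, gl, gt]
  · exact sat_XL η ψ b x w u' t' (hc w rfl)
  · simp [gLin, gTw, gl, gt]
  · have := sat_XL η ψ b x w' u t (hd w' rfl)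
    rw [add_comm] at this
    exact this
  · simp [gLin, gTw, gl, gt]
  · obtain ⟨rfl, rfl⟩ := hE
    simp [gLin, gTw, gl, gt, sec, two_add]
  · simp [gLin, gTw, gl, gt]
  · obtain ⟨rfl, rfl⟩ := hE
    simp [gLin, gTw, gl, gt, sec, two_add]
  · simp [gLin, gTw, gl, gt]

theorem eqn_of_sat (η : U → ℕ) (ψ : U → Fin 3 → W) (b : U → ZMod 2) (s : Cl U W → A2)
    (h : ∀ c d, (gLin η ψ).Sat (gTw b) s c d) (u : U) :
    Eqn ψ b (fun t w => (s (.N t w)).1) u := by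
  have h1 := fun t => h (.N t (ψ u t)) (.L u t) ⟨rfl, rfl⟩
  have h2 := fun t => h (.X u) (.L u t) (Or.inl rfl)
  have a0 := h1 0
  have a1 := h1 1
  have a2 := h1 2
  have b0 := h2 0
  have b1 := h2 1
  have b2 := h2 2
  simp [gLin, gTw, gl, gt, co] at a0 a1 a2 b0 b1 b2
  unfold Eqn
  have e := two_add
  linear_combination a0 + a1 + a2 + b0 + b1 + b2 - e (s (.L u 0)).1 - e (s (.L u 1)).1
    - e (s (.L u 2)).1 - e (s (.X u)).1 - e (s (.X u)).2

/-! ### The geometric realisation -/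

noncomputable def th (t : Fin 3) (β : ZMod 2) : ℝ := if (t = 1 ↔ β = 0) then -1 else 1

noncomputable def gam (p0 p1 B : ℝ) (m : A2) (y : ℝ) : ℝ :=
  if m.1 = 0 then
    (if m.2 = 0 then 4 * B - 2 - 4 * y else 8 * (y - p0 - 1 / 2) * (y - p0 - B - 1 / 2))
  else
    (if m.2 = 0 then 0 else -8 * (y - p1 - 1 / 2) * (y - p1 - B - 1 / 2))

theorem gam_quad (p0 p1 B : ℝ) (m : A2) :
    ∃ h a c : ℝ, ∀ y, gam p0 p1 B m y = h + a * y + c * y ^ 2 := by
  unfold gam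
  split_ifs
  · exact ⟨4 * B - 2, -4, 0, fun y => by ring⟩
  · exact ⟨8 * (p0 + 1 / 2) * (p0 + B + 1 / 2), -8 * (2 * p0 + B + 1), 8, fun y => by ring⟩
  · exact ⟨0, 0, 0, fun y => by ring⟩
  · exact ⟨-8 * (p1 + 1 / 2) * (p1 + B + 1 / 2), 8 * (2 * p1 + B + 1), -8, fun y => by ring⟩

noncomputable def bit (β : ZMod 2) : ℝ := if β = 0 then 0 else 1

theorem gam_spec (p : Fin 3 → ℝ) (B : ℝ) (h0 : 0 ≤ p 0) (h1 : p 0 + 1 ≤ p 1) (h2 : p 1 + 1 ≤ p 2)
    (h3 : p 2 + 1 ≤ B) (m : A2) (t : Fin 3) (β : ZMod 2) :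
    (co t m + β = 0 ∧ th t β < gam (p 0) (p 1) B m (p t + B * bit β)) ∨
    (co t m + β ≠ 0 ∧ gam (p 0) (p 1) B m (p t + B * bit β) < th t β) := by
  obtain ⟨m0, m1⟩ := m
  have z : ∀ a : ZMod 2, a = 0 ∨ a = 1 := by decide
  have o : (1 : ZMod 2) ≠ 0 := by decide
  have o2 : (1 : ZMod 2) + 1 = 0 := by decide
  rcases z m0 with rfl | rfl <;> rcases z m1 with rfl | rfl <;> rcases z β with rfl | rfl <;>
    fin_cases t <;> simp [co, th, gam, bit, o, o2] <;> nlinarith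

end Pool.Agent.H864Z.Disk
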