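import Mathlib

set_option autoImplicit false

open Filter Topology

namespace Pool.Agent.H864Z.Disk

theorem dist_pt (a b c d : ℝ) :
    dist (!₂[a, b] : EuclideanSpace ℝ (Fin 2)) !₂[c, d] = √((a - c) ^ 2 + (b - d) ^ 2) := by
  rw [EuclideanSpace.dist_eq]
  simp [Fin.sum_univ_two, Real.dist_eq, sq_abs]

theorem ev_lt {f g : ℝ → ℝ} (hf : Continuous f) (hg : Continuous g) (h : f 0 < g 0) :
    ∀ᶠ e in 𝓝[>] (0 : ℝ), f e < g e :=
  (hf.continuousAt.eventually_lt hg.continuousAt h).filter_mono nhdsWithin_le_nhds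

/-- A co-bipartite graph whose cross edges are the incidences between points and regions under
parabolas is a disk graph. -/
theorem disk_of_parabolas {V : Type*} [Finite V] (side : V → Prop) (h a c y x : V → ℝ)
    (G : SimpleGraph V)
    (hcc : ∀ u v, u ≠ v → side u → side v → G.Adj u v)
    (hpp : ∀ u v, u ≠ v → ¬ side u → ¬ side v → G.Adj u v)
    (hcp : ∀ u v, side u → ¬ side v →
      (G.Adj u v ∧ x v < h u + a u * y v + c u * (y v) ^ 2) ∨
      (¬ G.Adj u v ∧ h u + a u * y v + c u * (y v) ^ 2 < x v)) :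
    ∃ (ctr : V → EuclideanSpace ℝ (Fin 2)) (r : V → ℝ), (∀ i, 0 < r i) ∧
      ∀ i j, i ≠ j → (G.Adj i j ↔ dist (ctr i) (ctr j) ≤ r i + r j) := by
  classical
  let p : V → ℝ → ℝ := fun u e => -8 * e * c u
  let q : V → ℝ → ℝ := fun u e => 2 * e ^ 2 * a u
  let R : V → ℝ → ℝ := fun u e => (2 - p u e) ^ 2 + q u e ^ 2 + 4 * e ^ 3 * h u
  let X : V → ℝ → ℝ := fun v e => 2 - e ^ 2 * y v ^ 2 / 4 + e ^ 3 * x v
  let Y : V → ℝ → ℝ := fun v e => e * y v
  let S : V → V → ℝ → ℝ := fun u v e =>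
    4 * (x v - (h u + a u * y v + c u * (y v) ^ 2)) +
      e * ((e * x v - y v ^ 2 / 4) ^ 2 + 16 * c u * x v)
  have key : ∀ u v e, (p u e - X v e) ^ 2 + (q u e - Y v e) ^ 2 - R u e = e ^ 3 * S u v e := by
    intro u v e
    simp only [p, q, R, X, Y, S]
    ring
  have e1 : ∀ᶠ e in 𝓝[>] (0 : ℝ), ∀ u, (9 / 4 : ℝ) < R u e := by
    rw [eventually_all]
    intro u
    exact ev_lt (f := fun _ => 9 / 4) continuous_const (by simp only [p, q, R]; fun_prop)
      (by simp only [p, q, R]; norm_num)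
  have e2 : ∀ᶠ e in 𝓝[>] (0 : ℝ), ∀ u v, (p u e - p v e) ^ 2 + (q u e - q v e) ^ 2 < 1 := by
    rw [eventually_all]
    intro u
    rw [eventually_all]
    intro v
    exact ev_lt (g := fun _ => 1) (by simp only [p, q]; fun_prop) continuous_const
      (by simp only [p, q]; norm_num)
  have e3 : ∀ᶠ e in 𝓝[>] (0 : ℝ), ∀ u v, (X u e - X v e) ^ 2 + (Y u e - Y v e) ^ 2 < 4 := by
    rw [eventually_all]
    intro u
    rw [eventually_all]
    intro v
    exact ev_lt (g := fun _ => 4) (by simp only [X, Y]; fun_prop) continuous_const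
      (by simp only [X, Y]; norm_num)
  have e4 : ∀ᶠ e in 𝓝[>] (0 : ℝ), ∀ u v, side u → ¬ side v →
      (G.Adj u v ∧ S u v e < 0) ∨ (¬ G.Adj u v ∧ 0 < S u v e) := by
    rw [eventually_all]
    intro u
    rw [eventually_all]
    intro v
    by_cases hs : side u ∧ ¬ side v
    · rcases hcp u v hs.1 hs.2 with ⟨h1, h2⟩ | ⟨h1, h2⟩
      · have := ev_lt (f := S u v) (g := fun _ => 0) (by simp only [S]; fun_prop)
          continuous_const (by simp only [S]; linarith)
        filter_upwards [this] with e he _ _ using Or.inl ⟨h1, he⟩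
      · have := ev_lt (g := S u v) (f := fun _ => 0) continuous_const
          (by simp only [S]; fun_prop) (by simp only [S]; linarith)
        filter_upwards [this] with e he _ _ using Or.inr ⟨h1, he⟩
    · exact Eventually.of_forall fun e h1 h2 => absurd ⟨h1, h2⟩ hs
  obtain ⟨e, he0, h1, h2, h3, h4⟩ :=
    ((eventually_mem_nhdsWithin (a := (0 : ℝ)) (s := Set.Ioi 0)).and
      (e1.and (e2.and (e3.and e4)))).exists
  have he : 0 < e := he0
  have hR : ∀ u, 3 / 2 < √(R u e) := fun u => Real.lt_sqrt_of_sq_lt (by linarith [h1 u])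
  have cross : ∀ u v, side u → ¬ side v →
      (G.Adj u v ↔ √((p u e - X v e) ^ 2 + (q u e - Y v e) ^ 2) ≤ √(R u e) - 1 + 1) := by
    intro u v hu hv
    rw [sub_add_cancel, Real.sqrt_le_sqrt_iff (by linarith [h1 u])]
    have k := key u v e
    have he3 : 0 < e ^ 3 := by positivity
    rcases h4 u v hu hv with ⟨a1, a2⟩ | ⟨a1, a2⟩
    · have : e ^ 3 * S u v e < 0 := mul_neg_of_pos_of_neg he3 a2
      exact ⟨fun _ => by linarith, fun _ => a1⟩
    · have : 0 < e ^ 3 * S u v e := mul_pos he3 a2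
      exact ⟨fun h => absurd h a1, fun _ => by linarith⟩
  refine ⟨fun v => if side v then !₂[p v e, q v e] else !₂[X v e, Y v e],
    fun v => if side v then √(R v e) - 1 else 1, ?_, ?_⟩
  · intro i
    by_cases hi : side i
    · simp only [hi, if_true]; linarith [hR i]
    · simp only [hi, if_false]; norm_num
  · intro i j hij
    by_cases hi : side i <;> by_cases hj : side j <;> simp only [hi, hj, if_true, if_false]
    · refine ⟨fun _ => ?_, fun _ => hcc i j hij hi hj⟩
      rw [dist_pt]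
      have : √((p i e - p j e) ^ 2 + (q i e - q j e) ^ 2) ≤ 1 :=
        Real.sqrt_le_one.2 (h2 i j).le
      linarith [hR i, hR j]
    · rw [dist_pt]; exact cross i j hi hj
    · rw [dist_comm, dist_pt, G.adj_comm, add_comm (1 : ℝ)]; exact cross j i hj hi
    · refine ⟨fun _ => ?_, fun _ => hpp i j hij hi hj⟩
      rw [dist_pt]
      have : √((X i e - X j e) ^ 2 + (Y i e - Y j e) ^ 2) ≤ 2 :=
        Real.sqrt_le_iff.2 ⟨by norm_num, by linarith [h3 i j]⟩
      linarith

end Pool.Agent.H864Z.Disk
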