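import Pool.Agent.H864Z.Disk.Gadget

set_option autoImplicit false

namespace Pool.Agent.H864Z.Disk

variable {U W : Type}

theorem disk_of_quadratics {V : Type*} [Finite V] (side : V → Prop) (f : V → ℝ → ℝ)
    (hf : ∀ u, ∃ h a c : ℝ, ∀ y, f u y = h + a * y + c * y ^ 2) (y x : V → ℝ)
    (G : SimpleGraph V)
    (hcc : ∀ u v, u ≠ v → side u → side v → G.Adj u v)
    (hpp : ∀ u v, u ≠ v → ¬ side u → ¬ side v → G.Adj u v)
    (hcp : ∀ u v, side u → ¬ side v →
      (G.Adj u v ∧ x v < f u (y v)) ∨ (¬ G.Adj u v ∧ f u (y v) < x v)) :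
    ∃ (ctr : V → EuclideanSpace ℝ (Fin 2)) (r : V → ℝ), (∀ i, 0 < r i) ∧
      ∀ i j, i ≠ j → (G.Adj i j ↔ dist (ctr i) (ctr j) ≤ r i + r j) := by
  choose h a c hh using hf
  refine disk_of_parabolas side h a c y x G hcc hpp fun u v hu hv => ?_
  rw [← hh]
  exact hcp u v hu hv

def isCurve : Cl U W × A2 → Prop
  | (.L _ _, _) => False
  | _ => True

theorem gadget_disk [Finite U] [Finite W] (η : U → ℕ) (hη : Function.Injective η)
    (ψ : U → Fin 3 → W) :
    ∃ (ctr : Cl U W × A2 → EuclideanSpace ℝ (Fin 2)) (r : Cl U W × A2 → ℝ), (∀ i, 0 < r i) ∧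
      ∀ i j, i ≠ j → (((gLin η ψ).graph (Tw.zero _)).Adj i j ↔
        dist (ctr i) (ctr j) ≤ r i + r j) := by
  classical
  obtain ⟨M, ⟨idx⟩⟩ := Finite.exists_equiv_fin W
  -- integer positions
  let pos : Fin 3 → W → ZMod 2 → ℕ := fun t w β => (t.val + 3 * β.val) * M + (idx w).val
  have pos_inj : ∀ t w β s v γ, pos t w β = pos s v γ → t = s ∧ w = v ∧ β = γ := by
    intro t w β s v γ h
    have hM : 0 < M := Fin.pos (idx w)
    have h1 : pos t w β / M = t.val + 3 * β.val := by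
      simp only [pos]
      rw [add_comm, Nat.add_mul_div_right _ _ hM, Nat.div_eq_of_lt (idx w).2, zero_add]
    have h2 : pos s v γ / M = s.val + 3 * γ.val := by
      simp only [pos]
      rw [add_comm, Nat.add_mul_div_right _ _ hM, Nat.div_eq_of_lt (idx v).2, zero_add]
    have h3 : t.val + 3 * β.val = s.val + 3 * γ.val := by rw [← h1, ← h2, h]
    have h4 : (idx w).val = (idx v).val := by
      simp only [pos, h3] at h
      omega
    have ht := t.2
    have hs := s.2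
    refine ⟨Fin.ext (by omega), idx.injective (Fin.ext h4), ZMod.val_injective 2 (by omega)⟩
  let p : U → Fin 3 → ℝ := fun u t => (pos t (ψ u t) 0 : ℝ)
  let B : ℝ := 3 * M
  have hpos : ∀ u t β, (pos t (ψ u t) β : ℝ) = p u t + B * bit β := by
    intro u t β
    have z : ∀ a : ZMod 2, a = 0 ∨ a = 1 := by decide
    have o : (1 : ZMod 2) ≠ 0 := by decide
    have v1 : (1 : ZMod 2).val = 1 := by decide
    rcases z β with rfl | rfl
    · simp [p, bit]
    · simp only [p, pos, bit, B, o, if_false, v1, ZMod.val_zero]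
      push_cast
      ring
  have hp : ∀ u, 0 ≤ p u 0 ∧ p u 0 + 1 ≤ p u 1 ∧ p u 1 + 1 ≤ p u 2 ∧ p u 2 + 1 ≤ B := by
    intro u
    have a0 := (idx (ψ u 0)).2
    have a1 := (idx (ψ u 1)).2
    have a2 := (idx (ψ u 2)).2
    have b0 : pos 0 (ψ u 0) 0 + 1 ≤ pos 1 (ψ u 1) 0 := by simp [pos]; omega
    have b1 : pos 1 (ψ u 1) 0 + 1 ≤ pos 2 (ψ u 2) 0 := by simp [pos]; omega
    have b2 : pos 2 (ψ u 2) 0 + 1 ≤ 3 * M := by simp [pos]; omega
    refine ⟨by positivity, ?_, ?_, ?_⟩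
    · simp only [p]; exact_mod_cast b0
    · simp only [p]; exact_mod_cast b1
    · simp only [p, B]; exact_mod_cast b2
  -- a bound for the local differences
  obtain ⟨H, hH⟩ : ∃ H : ℝ, ∀ z : (U × A2) × (U × Fin 3 × ZMod 2),
      |gam (p z.1.1 0) (p z.1.1 1) B z.1.2 (pos z.2.2.1 (ψ z.2.1 z.2.2.1) z.2.2.2) -
        th z.2.2.1 z.2.2.2| < H := by
    obtain ⟨H, hH⟩ := (Set.finite_range (fun z : (U × A2) × (U × Fin 3 × ZMod 2) =>
      |gam (p z.1.1 0) (p z.1.1 1) B z.1.2 (pos z.2.2.1 (ψ z.2.1 z.2.2.1) z.2.2.2) -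
        th z.2.2.1 z.2.2.2|)).bddAbove
    exact ⟨H + 1, fun z => lt_of_le_of_lt (hH ⟨z, rfl⟩) (by linarith)⟩
  obtain ⟨T, hT⟩ : ∃ T : ℝ, ∀ z : U × Fin 3 × ZMod 2, |H * η z.1 + th z.2.1 z.2.2| < T := by
    obtain ⟨T, hT⟩ := (Set.finite_range (fun z : U × Fin 3 × ZMod 2 =>
      |H * η z.1 + th z.2.1 z.2.2|)).bddAbove
    exact ⟨T + 1, fun z => lt_of_le_of_lt (hT ⟨z, rfl⟩) (by linarith)⟩
  let f : Cl U W × A2 → ℝ → ℝ := fun v y =>
    match v with
    | (.X u, m) => H * η u + gam (p u 0) (p u 1) B m y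
    | (.N t w, m) => T - 2 * T * (y - pos t w m.1) ^ 2
    | _ => 0
  let yy : Cl U W × A2 → ℝ := fun v =>
    match v with
    | (.L u t, m) => pos t (ψ u t) m.1
    | _ => 0
  let xx : Cl U W × A2 → ℝ := fun v =>
    match v with
    | (.L u t, m) => H * η u + th t m.1
    | _ => 0
  refine disk_of_quadratics isCurve f ?_ yy xx _ ?_ ?_ ?_
  · rintro ⟨u | ⟨u, t⟩ | ⟨t, w⟩, m⟩
    · obtain ⟨h, a, c, hh⟩ := gam_quad (p u 0) (p u 1) B m
      exact ⟨H * η u + h, a, c, fun y => by simp only [f, hh]; ring⟩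
    · exact ⟨0, 0, 0, fun y => by simp [f]⟩
    · exact ⟨T - 2 * T * (pos t w m.1 : ℝ) ^ 2, 4 * T * pos t w m.1, -2 * T,
        fun y => by simp only [f]; ring⟩
  · rintro ⟨u | ⟨u, t⟩ | ⟨t, w⟩, m⟩ ⟨u' | ⟨u', t'⟩ | ⟨t', w'⟩, m'⟩ hne h1 h2 <;>
      first
      | exact h1.elim
      | exact h2.elim
      | exact ⟨hne, trivial, by simp [gLin, gl, Tw.zero]⟩
  · rintro ⟨u | ⟨u, t⟩ | ⟨t, w⟩, m⟩ ⟨u' | ⟨u', t'⟩ | ⟨t', w'⟩, m'⟩ hne h1 h2 <;>
      first
      | exact (h1 trivial).elim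
      | exact (h2 trivial).elim
      | exact ⟨hne, trivial, by simp [gLin, gl, Tw.zero]⟩
  · rintro ⟨w | ⟨u0, t0⟩ | ⟨s, w⟩, m⟩ ⟨u' | ⟨u, t⟩ | ⟨t', w'⟩, m'⟩ h1 h2 <;>
      first
      | exact h1.elim
      | exact (h2 trivial).elim
      | skip
    · -- equation curve against a port
      have hadj : ((gLin η ψ).graph (Tw.zero _)).Adj (Cl.X w, m) (Cl.L u t, m') ↔
          (w = u ∨ η u < η w) ∧ (w = u → co t m + m'.1 = 0) := by
        by_cases hw : w = u
        · simp [Lin.graph, Lin.Rel, gLin, gE, gl, Tw.zero, hw]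
        · simp [Lin.graph, Lin.Rel, gLin, gE, gl, Tw.zero, hw]
      rw [hadj]
      simp only [f, yy, xx]
      by_cases hw : w = u
      · subst hw
        obtain ⟨q0, q1, q2, q3⟩ := hp w
        rw [hpos]
        rcases gam_spec (p w) B q0 q1 q2 q3 m t m'.1 with ⟨a1, a2⟩ | ⟨a1, a2⟩
        · exact Or.inl ⟨⟨Or.inl rfl, fun _ => a1⟩, by linarith⟩
        · exact Or.inr ⟨fun h => a1 (h.2 rfl), by linarith⟩
      · have hb := abs_lt.1 (hH ((w, m), (u, t, m'.1)))
        simp only at hb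
        have hH0 : 0 < H := by linarith [hb.1, hb.2]
        rcases lt_or_gt_of_ne (hη.ne hw) with hlt | hlt
        · refine Or.inr ⟨fun h => ?_, ?_⟩
          · rcases h.1 with h | h
            · exact hw h
            · omega
          · have : (η w : ℝ) + 1 ≤ η u := by exact_mod_cast hlt
            nlinarith [hb.1, hb.2]
        · refine Or.inl ⟨⟨Or.inr hlt, fun h => absurd h hw⟩, ?_⟩
          have : (η u : ℝ) + 1 ≤ η w := by exact_mod_cast hlt
          nlinarith [hb.1, hb.2]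
    · -- variable curve against a port
      have hadj : ((gLin η ψ).graph (Tw.zero _)).Adj (Cl.N s w, m) (Cl.L u t, m') ↔
          (s = t ∧ w = ψ u t) ∧ m.1 = m'.1 := by
        have z : ∀ a b : ZMod 2, a + b = 0 ↔ a = b := by decide
        simp [Lin.graph, Lin.Rel, gLin, gE, gl, Tw.zero, z]
      rw [hadj]
      simp only [f, yy, xx]
      have hb := abs_lt.1 (hT (u, t, m'.1))
      simp only at hb
      by_cases he : pos t (ψ u t) m'.1 = pos s w m.1
      · obtain ⟨e1, e2, e3⟩ := pos_inj _ _ _ _ _ _ he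
        refine Or.inl ⟨⟨⟨e1.symm, e2.symm⟩, e3.symm⟩, ?_⟩
        rw [he]
        linarith [hb.2]
      · refine Or.inr ⟨?_, ?_⟩
        · rintro ⟨⟨rfl, rfl⟩, e3⟩
          exact he (by rw [e3])
        · have h1 : (1 : ℝ) ≤ ((pos t (ψ u t) m'.1 : ℝ) - pos s w m.1) ^ 2 := by
            have : (1 : ℤ) ≤ ((pos t (ψ u t) m'.1 : ℤ) - pos s w m.1) ^ 2 := by
              have : (pos t (ψ u t) m'.1 : ℤ) - pos s w m.1 ≠ 0 := by omega
              exact (one_le_sq_iff_one_le_abs _).2 (Int.one_le_abs this)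
            exact_mod_cast this
          have hT0 : 0 < T := by linarith [hb.1, hb.2]
          nlinarith [hb.1]

end Pool.Agent.H864Z.Disk
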