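import Pool.Agent.H864Z.Disk.Gadget

set_option autoImplicit false

namespace Pool.Agent.H864Z.Disk

abbrev Om (k : ℕ) : Type := Fin (k + 1) × Fin (k + 1)

abbrev Nd (k : ℕ) : Type := Bool × Om k

/-- Ports of the nodes: rows are cycles, the third port joins row `i` to row `j`. -/
def psi {k : ℕ} (u : Nd k) : Fin 3 → Om k :=
  if u.1 then ![u.2, (u.2.1, u.2.2 + 1), (u.2.2, u.2.1)] else fun _ => u.2

def row {k : ℕ} : Cl (Nd k) (Om k) → Fin (k + 1)
  | .X u => u.2.1
  | .L u _ => u.2.1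
  | .N _ w => w.1

theorem cycle_solve {k : ℕ} (r : Fin (k + 1) → ZMod 2) (hr : ∑ j, r j = 0) :
    ∃ z : Fin (k + 1) → ZMod 2, ∀ j, z (j + 1) = z j + r j := by
  let r' : ℕ → ZMod 2 := fun m => if h : m < k + 1 then r ⟨m, h⟩ else 0
  have hr' : ∀ j : Fin (k + 1), r' j.val = r j := fun j => dif_pos j.2
  refine ⟨fun j => ∑ m ∈ Finset.range j.val, r' m, fun j => ?_⟩
  by_cases hj : j = Fin.last k
  · subst hj
    have h1 : ∑ m ∈ Finset.range (k + 1), r' m = 0 := by
      rw [← hr, Finset.sum_range]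
      exact Finset.sum_congr rfl fun j _ => hr' j
    rw [Finset.sum_range_succ] at h1
    have h2 := hr' (Fin.last k)
    simp only [Fin.val_last] at h2
    simp only [Fin.last_add_one, Fin.val_zero, Finset.range_zero, Finset.sum_empty, Fin.val_last]
    rw [← h2, h1]
  · have : (j + 1).val = j.val + 1 := Fin.val_add_one_of_lt (Fin.lt_last_iff_ne_last.2 hj)
    simp only [this, Finset.sum_range_succ, hr']

/-- The defect can be moved from row `i` to row `i'`. -/
theorem move {k : ℕ} (b : Nd k → ZMod 2) (x : Fin 3 → Om k → ZMod 2) (i i' : Fin (k + 1))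
    (hii : i ≠ i') (hx : ∀ u : Nd k, u.2.1 ≠ i → Eqn psi b x u) :
    ∃ x' : Fin 3 → Om k → ZMod 2, (∀ u : Nd k, u.2.1 ≠ i' → Eqn psi b x' u) ∧
      (∀ t w, w.1 ≠ i → x' t w = x t w) ∧ (∀ w : Om k, w.2 ≠ i' → x' 2 w = x 2 w) := by
  classical
  let v : Nd k → ZMod 2 := fun u => x 0 (psi u 0) + x 1 (psi u 1) + x 2 (psi u 2) + b u
  let σ : ZMod 2 := ∑ j, (v (false, i, j) + v (true, i, j))
  let z2 : Om k → ZMod 2 := fun w => if w = (i, i') then σ else 0
  let r : Fin (k + 1) → ZMod 2 := fun j => v (false, i, j) + v (true, i, j) + z2 (i, j)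
  have hr : ∑ j, r j = 0 := by
    simp only [r, z2, Finset.sum_add_distrib, Prod.mk.injEq, true_and, Finset.sum_ite_eq',
      Finset.mem_univ, if_true, σ]
    exact two_add _
  obtain ⟨z, hz⟩ := cycle_solve r hr
  let z1 : Om k → ZMod 2 := fun w => if w.1 = i then z w.2 else 0
  let z0 : Om k → ZMod 2 := fun w =>
    if w.1 = i then v (false, i, w.2) + z2 (i, w.2) + z w.2 else 0
  refine ⟨![x 0 + z0, x 1 + z1, x 2 + z2], ?_, ?_, ?_⟩
  · rintro ⟨ε, a, j⟩ ha
    simp only at ha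
    have e := two_add
    by_cases hai : a = i
    · subst hai
      cases ε
      · simp only [Eqn, psi, z0, z1, v]
        simp
        linear_combination e (x 0 (a, j)) + e (x 1 (a, j)) + e (x 2 (a, j)) + e (z j) +
          e (z2 (a, j))
      · have h2 : z2 (j, a) = 0 := by simp [z2, hii]
        have h3 := hz j
        simp only [r, v, psi] at h3
        simp only [Eqn, psi, z0, z1, v]
        simp [h2] at h3 ⊢
        rw [h3]
        linear_combination e (x 0 (a, j)) + e (x 1 (a, j)) + e (x 2 (a, j)) + e (z j) +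
          e (z2 (a, j)) + e (b (false, a, j)) + e (x 0 (a, j)) + e (x 1 (a, j + 1)) +
          e (x 2 (j, a))
    · have h := hx (ε, a, j) hai
      cases ε
      · have h2 : z2 (a, j) = 0 := by simp [z2, hai]
        simp only [Eqn, psi, z0, z1] at h ⊢
        simpa [hai, h2] using h
      · have h2 : z2 (j, a) = 0 := by simp [z2, ha]
        simp only [Eqn, psi, z0, z1] at h ⊢
        simpa [hai, h2] using h
  · rintro t ⟨a, j⟩ ha
    simp only at ha
    fin_cases t <;> simp [z0, z1, z2, ha]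
  · rintro ⟨a, j⟩ hj
    simp only at hj
    simp [z2, hj]

def bb {k : ℕ} (u : Nd k) : ZMod 2 := if u = (false, 0, 0) then 1 else 0

theorem unsat {k : ℕ} (x : Fin 3 → Om k → ZMod 2) : ¬ ∀ u : Nd k, Eqn psi bb x u := by
  intro h
  have h0 : ∑ w : Om k, (x 0 w + x 1 w + x 2 w) = 1 := by
    have : ∀ w : Om k, x 0 w + x 1 w + x 2 w = if w = (0, 0) then 1 else 0 := by
      intro w
      have := h (false, w)
      simpa [Eqn, psi, bb] using this
    simp [this]
  have h1 : ∑ w : Om k, (x 0 w + x 1 (w.1, w.2 + 1) + x 2 (w.2, w.1)) = 0 := by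
    refine Finset.sum_eq_zero fun w _ => ?_
    have := h (true, w)
    simpa [Eqn, psi, bb] using this
  have h2 : ∑ w : Om k, x 1 (w.1, w.2 + 1) = ∑ w : Om k, x 1 w :=
    Equiv.sum_comp (Equiv.prodCongr (Equiv.refl _) (Equiv.addRight (1 : Fin (k + 1)))) (x 1)
  have h3 : ∑ w : Om k, x 2 (w.2, w.1) = ∑ w : Om k, x 2 w :=
    Equiv.sum_comp (Equiv.prodComm _ _) (x 2)
  simp only [Finset.sum_add_distrib] at h0 h1
  rw [h2, h3, h0] at h1
  exact one_ne_zero h1

theorem free_row {k : ℕ} (cs : Fin k → Cl (Nd k) (Om k)) : ∃ i, ∀ j, row (cs j) ≠ i := by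
  by_contra hc
  push Not at hc
  have := Fintype.card_le_of_surjective (fun j => row (cs j)) (fun i => hc i)
  simp at this

def Good {k : ℕ} (cs : Fin k → Cl (Nd k) (Om k)) (s : Cl (Nd k) (Om k) → A2) : Prop :=
  ∃ i x, (∀ j, row (cs j) ≠ i) ∧ (∀ u : Nd k, u.2.1 ≠ i → Eqn psi bb x u) ∧ s = sec psi x

theorem sec_agree {k : ℕ} (x x' : Fin 3 → Om k → ZMod 2) (i i' : Fin (k + 1))
    (h1 : ∀ t w, w.1 ≠ i → x' t w = x t w) (h2 : ∀ w : Om k, w.2 ≠ i' → x' 2 w = x 2 w)
    (c : Cl (Nd k) (Om k)) (hc : row c ≠ i) (hc' : row c ≠ i') :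
    sec psi x' c = sec psi x c := by
  have key : ∀ u : Nd k, u.2.1 ≠ i → u.2.1 ≠ i' → ∀ t, x' t (psi u t) = x t (psi u t) := by
    rintro ⟨ε, a, j⟩ ha ha' t
    cases ε
    · exact h1 t _ (by simpa [psi] using ha)
    · fin_cases t
      · exact h1 _ _ (by simpa [psi] using ha)
      · exact h1 _ _ (by simpa [psi] using ha)
      · exact h2 _ (by simpa [psi] using ha')
  rcases c with u | ⟨u, t⟩ | ⟨t, w⟩
  · simp only [sec, key u hc hc']
  · simp only [sec, key u hc hc']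
  · simp only [sec, h1 t w hc]

theorem move' {k : ℕ} (x : Fin 3 → Om k → ZMod 2) (i i' : Fin (k + 1))
    (hx : ∀ u : Nd k, u.2.1 ≠ i → Eqn psi bb x u) :
    ∃ x' : Fin 3 → Om k → ZMod 2, (∀ u : Nd k, u.2.1 ≠ i' → Eqn psi bb x' u) ∧
      ∀ c, row c ≠ i → row c ≠ i' → sec psi x' c = sec psi x c := by
  by_cases h : i = i'
  · subst h
    exact ⟨x, hx, fun _ _ _ => rfl⟩
  · obtain ⟨x', a1, a2, a3⟩ := move bb x i i' h hx
    exact ⟨x', a1, sec_agree x x' i i' a2 a3⟩

theorem good_sat {k : ℕ} (η : Nd k → ℕ) (cs : Fin k → Cl (Nd k) (Om k))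
    (s : Cl (Nd k) (Om k) → A2) (h : Good cs s) (i j : Fin k) :
    (gLin η psi).Sat (gTw bb) s (cs i) (cs j) := by
  obtain ⟨r, x, h1, h2, rfl⟩ := h
  refine sat_sec η psi bb x _ _ (fun u hu => h2 u ?_) (fun u hu => h2 u ?_)
  · have := h1 i
    rwa [hu] at this
  · have := h1 j
    rwa [hu] at this

theorem good_step {k : ℕ} (cs : Fin k → Cl (Nd k) (Om k)) (s : Cl (Nd k) (Om k) → A2)
    (h : Good cs s) (i : Fin k) (c : Cl (Nd k) (Om k)) :
    ∃ s', Good (Function.update cs i c) s' ∧ ∀ j, j ≠ i → s' (cs j) = s (cs j) := by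
  obtain ⟨r, x, h1, h2, rfl⟩ := h
  obtain ⟨r', hr'⟩ := free_row (Function.update cs i c)
  obtain ⟨x', a1, a2⟩ := move' x r r' h2
  refine ⟨sec psi x', ⟨r', x', hr', a1, rfl⟩, fun j hj => a2 _ (h1 j) ?_⟩
  have := hr' j
  rwa [Function.update_of_ne hj] at this

theorem good_start {k : ℕ} (c : Cl (Nd k) (Om k)) : ∃ s, Good (fun _ : Fin k => c) s := by
  obtain ⟨r', hr'⟩ := free_row (fun _ : Fin k => c)
  obtain ⟨x', a1, _⟩ := move' (k := k) (fun _ _ => 0) 0 r' (by
    rintro ⟨ε, a, j⟩ ha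
    simp only at ha
    simp [Eqn, bb, ha])
  exact ⟨sec psi x', r', x', hr', a1, rfl⟩

end Pool.Agent.H864Z.Disk
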